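import Pool.Agent.Helper2.FR.FN
import Pool.Agent.Helper9.AV.OO
import Pool.Agent.Helper61.FR.FX8a

/-!
Linked orthogonal Lie algebras in dimension eight (project FR, block FX8b).
-/

set_option linter.unusedVariables false
set_option linter.unusedSectionVars false
set_option linter.unusedSimpArgs false

open Module

namespace FR

open MTP UN AV

section frame
variable {K : Type*} [Field K] [CharZero K] {W : Type*} [AddCommGroup W]
  [Module K W] [FiniteDimensional K W] {b : LinearMap.BilinForm K W}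

/-- The facts about an element of vector type. -/
private lemma vec_facts56 (ha : ∀ v w, b v w = b w v) {e f : W} (he : b e e = 0) (hf : b f f = 0)
    (hef : b e f = 1) : P3.ww b e f * P3.ww b e f * P3.ww b e f = P3.ww b e f ∧ rk (P3.ww b e f) = 2 ∧
      ∀ z, IsSk b z → P3.ww b e f * P3.ww b e f * z * P3.ww b e f =
        P3.ww b e f * z * P3.ww b e f * P3.ww b e f := by
  have hfe : b f e = 1 := by rw [ha, hef]
  set h := P3.ww b e f with hh
  have h1 : h e = e := by
    rw [hh, P3.ww_apply, hfe, he, one_smul, zero_smul, sub_zero]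
  have h2 : h f = -f := by
    rw [hh, P3.ww_apply, hf, hef, one_smul, zero_smul, zero_sub]
  have hv : ∀ v, h v = b f v • e - b e v • f := fun v => rfl
  have hhv : ∀ v, h (h v) = b f v • e + b e v • f := by
    intro v
    rw [hv v, map_sub, map_smul, map_smul, h1, h2]
    module
  refine ⟨?_, ?_, ?_⟩
  · ext v
    rw [Module.End.mul_apply, Module.End.mul_apply, hhv (h v), hv v]
    simp only [map_sub, map_smul, smul_eq_mul, hfe, hf, he, hef, mul_one, mul_zero, sub_zero,
      zero_sub]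
    module
  · have e1 : h = (b f).smulRight e + -((b e).smulRight f) := by
      rw [hh]; exact sub_eq_add_neg _ _
    have hbf : b f ≠ 0 := by
      intro h0
      rw [h0, LinearMap.zero_apply] at hfe
      exact zero_ne_one hfe
    have hbe : b e ≠ 0 := by
      intro h0
      rw [h0, LinearMap.zero_apply] at hef
      exact zero_ne_one hef
    have he0 : e ≠ 0 := by
      intro h0; rw [h0, map_zero] at hbe; exact hbe rfl
    have hf0 : f ≠ 0 := by
      intro h0; rw [h0, map_zero] at hbf; exact hbf rfl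
    rw [e1, rk_add (p := ((b f).smulRight e : Module.End K W))
      (q := ((b f).smulRight e : Module.End K W)), rk_neg, P3.rk_smulRight hbf he0,
      P3.rk_smulRight hbe hf0]
    · ext v
      simp only [Module.End.mul_apply, LinearMap.smulRight_apply, map_smul, smul_eq_mul, hfe,
        mul_one, one_smul]
    · ext v
      simp only [Module.End.mul_apply, LinearMap.smulRight_apply, LinearMap.neg_apply, map_neg,
        map_smul, smul_eq_mul, hf, mul_zero, neg_zero, zero_smul, smul_zero,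
        LinearMap.zero_apply]
    · ext v
      simp only [Module.End.mul_apply, LinearMap.smulRight_apply, map_smul, smul_eq_mul, hfe,
        mul_one, one_smul]
    · ext v
      simp only [Module.End.mul_apply, LinearMap.smulRight_apply, LinearMap.neg_apply, map_neg,
        map_smul, smul_eq_mul, he, mul_zero, neg_zero, zero_smul, smul_zero,
        LinearMap.zero_apply]
  · intro z hz
    have hze : b e (z e) = 0 := by
      have h3 := hz e e
      rw [ha] at h3
      have h4 : (2 : K) * b e (z e) = 0 := by linear_combination h3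
      exact (mul_eq_zero.mp h4).resolve_left two_ne_zero
    have hzf : b f (z f) = 0 := by
      have h3 := hz f f
      rw [ha] at h3
      have h4 : (2 : K) * b f (z f) = 0 := by linear_combination h3
      exact (mul_eq_zero.mp h4).resolve_left two_ne_zero
    have hzz : b e (z f) = -b f (z e) := by
      have h3 := hz f e
      have h4 := ha (z f) e
      linear_combination h3 - h4
    have key : h * z * h = (b f (z e)) • h := by
      ext v
      rw [Module.End.mul_apply, Module.End.mul_apply, LinearMap.smul_apply, hv v, map_sub,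
        map_smul, map_smul, map_sub, map_smul, map_smul, hv (z e), hv (z f), hze, hzf, hzz]
      module
    calc h * h * z * h = h * (h * z * h) := by noncomm_ring
      _ = (b f (z e)) • (h * h) := by rw [key, mul_smul_comm]
      _ = (h * z * h) * h := by rw [key, smul_mul_assoc]

variable {e f : Fin 4 → W}

private lemma v_e56 (hee : ∀ i j, b (e i) (e j) = 0) (hfe : ∀ i j, b (f i) (e j) = if i = j then 1 else 0)
    (i j : Fin 4) : P3.ww b (e i) (f i) (e j) = if i = j then e i else 0 := by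
  rw [P3.ww_apply, hee, hfe, zero_smul, sub_zero]
  split_ifs
  · rw [one_smul]
  · rw [zero_smul]

private lemma v_f56 (hff : ∀ i j, b (f i) (f j) = 0) (hef : ∀ i j, b (e i) (f j) = if i = j then 1 else 0)
    (i j : Fin 4) : P3.ww b (e i) (f i) (f j) = if i = j then -(f i) else 0 := by
  rw [P3.ww_apply, hff, hef, zero_smul, zero_sub]
  split_ifs
  · rw [one_smul]
  · rw [zero_smul, neg_zero]

/-- The frame spans. -/
private lemma frame56 (hb : b.Nondegenerate) (ha : ∀ v w, b v w = b w v) (hd : finrank K W = 8)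
    (hee : ∀ i j, b (e i) (e j) = 0) (hff : ∀ i j, b (f i) (f j) = 0)
    (hef : ∀ i j, b (e i) (f j) = if i = j then 1 else 0) (w : W) :
    w = ∑ i, (b (f i) w • e i + b (e i) w • f i) := by
  have hfe : ∀ i j, b (f i) (e j) = if i = j then 1 else 0 := by
    intro i j
    rw [ha, hef]
    simp only [eq_comm]
  set v : Fin 4 → Module.End K W := fun i => P3.ww b (e i) (f i) with hv
  have hvv : ∀ i w, (v i * v i) w = b (f i) w • e i + b (e i) w • f i := by
    intro i w
    change P3.ww b (e i) (f i) (P3.ww b (e i) (f i) w) = _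
    rw [P3.ww_apply (e i) (f i) w, map_sub, map_smul, map_smul, v_e56 hee hfe, v_f56 hff hef, if_pos rfl, if_pos rfl]
    module
  have hfac : ∀ i, v i * v i * v i = v i ∧ rk (v i) = 2 ∧ _ := fun i =>
    vec_facts56 ha (hee i i) (hff i i) (by rw [hef, if_pos rfl])
  have htr : ∀ i, LinearMap.trace K W (v i * v i) = 2 := fun i =>
    (P3.vec_rk hb (P3.ww_sk ha (e i) (f i)) (hfac i).1 (hfac i).2.1).1
  set T : Module.End K W := ∑ i, v i * v i with hT
  have hTw : ∀ w, T w = ∑ i, (b (f i) w • e i + b (e i) w • f i) := by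
    intro w
    rw [hT, LinearMap.sum_apply]
    exact Finset.sum_congr rfl fun i _ => hvv i w
  have hTe : ∀ j, T (e j) = e j := by
    intro j
    rw [hTw]
    simp [hfe, hee]
  have hTf : ∀ j, T (f j) = f j := by
    intro j
    rw [hTw]
    simp [hef, hff]
  have hTT : T * T = T := by
    ext w
    rw [Module.End.mul_apply]
    conv_lhs => rw [hTw w]
    conv_rhs => rw [hTw w]
    simp only [map_sum, map_add, map_smul, hTe, hTf]
  have htrT : LinearMap.trace K W T = 8 := by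
    rw [hT, map_sum]
    simp only [htr]
    norm_num
  have hrk : rk T = 8 := by
    have h1 := LK.trace_idem hTT
    rw [htrT] at h1
    exact_mod_cast h1.symm
  have hr : LinearMap.range T = ⊤ := by
    apply Submodule.eq_top_of_finrank_eq
    rw [hd]
    exact hrk
  have h1 : w ∈ LinearMap.range T := by
    rw [hr]; trivial
  obtain ⟨u, rfl⟩ := h1
  rw [← hTw, ← Module.End.mul_apply, hTT]

private lemma ext56 {W' : Type*} [AddCommGroup W'] [Module K W'] (hs : ∀ w, w = ∑ i, (b (f i) w • e i + b (e i) w • f i))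
    {A B : W →ₗ[K] W'} (h1 : ∀ i, A (e i) = B (e i)) (h2 : ∀ i, A (f i) = B (f i)) : A = B := by
  ext w
  rw [hs w]
  simp only [map_sum, map_add, map_smul, h1, h2]

private lemma anti56 (hb : b.Nondegenerate) {h N : Module.End K W} (hh : IsSk b h) (hN : IsSk b N) {σ : K}
    (hσ : h * N = σ • N) : N * h = (-σ) • N := by
  apply P1.eq_of_form hb
  intro v w
  have h1 : h (N w) = σ • N w := LinearMap.congr_fun hσ w
  rw [Module.End.mul_apply, hN (h v) w, hh v (N w), h1, map_smul, LinearMap.smul_apply, map_smul,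
    LinearMap.smul_apply, hN v w]
  simp only [smul_eq_mul]
  ring

end frame

private lemma half56 {K : Type*} [Field K] [CharZero K] {R : Type*} [Ring R] [Algebra K R] {P N x : R} (hP : P * P = P)
    (hx : x = P - (2 : K)⁻¹ • 1) (h : x * N - N * x = N) : x * N = (2 : K)⁻¹ • N := by
  have h1 : P * N - N * P = N := by
    have h0 : x * N - N * x = P * N - N * P := by
      rw [hx, sub_mul, mul_sub, smul_mul_assoc, one_mul, mul_smul_comm, mul_one]
      abel
    rw [← h0]
    exact h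
  have h2 : P * N * P = 0 := by
    have h3 : P * (P * N - N * P) = P * N := by rw [h1]
    rw [mul_sub, ← mul_assoc, hP, ← mul_assoc] at h3
    exact sub_eq_self.mp h3
  have h4 : N * P = 0 := by
    have h3 : (P * N - N * P) * P = N * P := by rw [h1]
    rw [sub_mul, h2, mul_assoc, hP, zero_sub] at h3
    have h5 : (2 : K) • (N * P) = 0 := by
      rw [two_smul]
      nth_rewrite 1 [← h3]
      abel
    exact (smul_eq_zero.mp h5).resolve_left two_ne_zero
  rw [h4, sub_zero] at h1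
  rw [hx, sub_mul, h1, smul_mul_assoc, one_mul]
  have : N - (2 : K)⁻¹ • N = (1 - (2 : K)⁻¹) • N := by rw [sub_smul, one_smul]
  rw [this]
  congr 1
  norm_num

private lemma quarter56 {K : Type*} [Field K] [CharZero K] {R : Type*} [Ring R] [Algebra K R] {P x : R} (hP : P * P = P)
    (hx : x = P - (2 : K)⁻¹ • 1) : x * x = (4 : K)⁻¹ • 1 := by
  rw [hx, sub_mul, mul_sub, mul_sub, hP, smul_mul_assoc, smul_mul_assoc, one_mul, mul_smul_comm, mul_one,
    mul_smul_comm, mul_one, smul_smul]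
  have : P - (2 : K)⁻¹ • P - ((2 : K)⁻¹ • P - ((2 : K)⁻¹ * (2 : K)⁻¹) • (1 : R)) =
      (1 - 2⁻¹ - 2⁻¹ : K) • P + ((2 : K)⁻¹ * (2 : K)⁻¹) • 1 := by module
  rw [this]
  norm_num

section pair
variable {K : Type*} [Field K] [CharZero K] [IsAlgClosed K] {W₁ W₂ : Type*} [AddCommGroup W₁]
  [Module K W₁] [FiniteDimensional K W₁] [AddCommGroup W₂] [Module K W₂]
  [FiniteDimensional K W₂] {L : Submodule K (Module.End K W₁ × Module.End K W₂)}
  {b₁ : LinearMap.BilinForm K W₁} {b₂ : LinearMap.BilinForm K W₂}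
  {N h : Module.End K W₁ × Module.End K W₂} {σ₁ σ₂ τ₁ τ₂ : K}

/-- The second half of `pair_OO`. -/
private lemma of_vec56 (hL : Lk L) (hb1 : b₁.Nondegenerate) (ha1 : ∀ v w, b₁ v w = b₁ w v)
    (hb2 : b₂.Nondegenerate) (ha2 : ∀ v w, b₂ v w = b₂ w v) (h1 : On1 L (skw b₁))
    (h2 : On2 L (skw b₂)) (hd1 : 3 ≤ finrank K W₁) (hd2 : 3 ≤ finrank K W₂)
    {x : Module.End K W₁ × Module.End K W₂} (hx : x ∈ L) (hh : x.1 * x.1 * x.1 = x.1) (hr : rk x.1 = 2)
    (hz : ∀ z, IsSk b₁ z → x.1 * x.1 * z * x.1 = x.1 * z * x.1 * x.1)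
    (hh2 : x.2 * x.2 * x.2 = x.2) (hr2 : rk x.2 = 2) :
    ∃ f : W₁ →ₗ[K] W₂, f ≠ 0 ∧ ∀ x ∈ L, ∀ v, f (x.1 v) = x.2 (f v) := by
  have s1 : ∀ z ∈ L, IsSk b₁ z.1 := fun z hz => LK.mem1 h1 hz
  have s2 : ∀ z ∈ L, IsSk b₂ z.2 := fun z hz => LK.mem2 h2 hz
  have hg : Grd (skw b₂) x.2 := LK.grd hL h2 hx fun z hzL => P3.vec_cube hh (hz z.1 (s1 z hzL))
  have t1 := P3.vec_rk hb1 (s1 x hx) hh hr
  have t2 := P3.vec_rk hb2 (s2 x hx) hh2 hr2
  obtain ⟨κ, hκ⟩ := LK.trf hL hx (by rw [t1.1]; exact two_ne_zero)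
  have hκ1 : κ = 1 := by
    have h3 := hκ x hx x hx
    rw [t1.1, t2.1] at h3
    have h4 : (2 : K) * (κ - 1) = 0 := by linear_combination -h3
    have h5 := (mul_eq_zero.mp h4).resolve_left two_ne_zero
    linear_combination h5
  have hxx : x * x * x = x := Prod.ext hh hh2
  refine LK.exists_tw (h := x) (q := (2 : K)⁻¹ • (x * x + x))
    (fun U hU => P3.so_irr hb1 ha1 hd1 (fun y hy v hv => ?_))
    (fun U hU => P3.so_irr hb2 ha2 hd2 (fun y hy v hv => ?_)) hL.br
    hxx (fun z hzL => hL.br x hx z hzL) ?_ rfl ?_ ?_ ?_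
  · obtain ⟨z, hz, rfl⟩ := LK.ex1 h1 hy
    exact hU z hz v hv
  · obtain ⟨z, hz, rfl⟩ := LK.ex2 h2 hy
    exact hU z hz v hv
  · intro z hzL
    exact Prod.ext (P3.vec_cube hh (hz z.1 (s1 z hzL))) (hg z.2 (LK.mem2 h2 hzL))
  · change (2 : K)⁻¹ • (x.1 * x.1 + x.1) ≠ 0
    rw [← rk_pos, t1.2.2]; exact one_pos
  · change (2 : K)⁻¹ • (x.2 * x.2 + x.2) ≠ 0
    rw [← rk_pos, t2.2.2]; exact one_pos
  · intro z hzL hxz
    have e1 := LK.sandwich t1.2.1 t1.2.2 z.1
    have e2 := LK.sandwich t2.2.1 t2.2.2 z.2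
    rw [P3.vec_trace hb1 (s1 x hx) (s1 z hzL) (congrArg Prod.fst hxz)] at e1
    rw [P3.vec_trace hb2 (s2 x hx) (s2 z hzL) (congrArg Prod.snd hxz), hκ x hx z hzL, hκ1, one_mul] at e2
    exact ⟨_, Prod.ext e1 e2⟩

/-- FX8 -/
theorem pair_eight (hL : Lk L) (hb1 : b₁.Nondegenerate) (ha1 : ∀ v w, b₁ v w = b₁ w v)
    (hb2 : b₂.Nondegenerate) (ha2 : ∀ v w, b₂ v w = b₂ w v) (h1 : On1 L (skw b₁))
    (h2 : On2 L (skw b₂)) (hd1 : finrank K W₁ = 8) (hN : N ∈ L) (hh : h ∈ L)
    (hNN : N.1 * N.1 = 0) (hr : rk N.1 = 2)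
    (hσ1 : h.1 * N.1 = σ₁ • N.1) (hσ2 : h.2 * N.2 = σ₂ • N.2)
    (hdiag : ⨆ q : ℚ, h.1.eigenspace (q : K) = ⊤) :
    (∃ f : W₁ →ₗ[K] W₂, f ≠ 0 ∧ ∀ x ∈ L, ∀ v, f (x.1 v) = x.2 (f v)) ∨ nev N.1 h.1 ≤ 2 := by
  have s1 : ∀ z ∈ L, IsSk b₁ z.1 := fun z hz => LK.mem1 h1 hz
  have s2 : ∀ z ∈ L, IsSk b₂ z.2 := fun z hz => LK.mem2 h2 hz
  have hdd : finrank K W₂ = 8 := by
    have d1 := dim_so hb1 ha1
    have d2 := dim_so hb2 ha2
    rw [LK.finrank_eq hL h1 h2, hd1] at d1
    have h4 : ((finrank K W₂ : ℤ) - 8) * ((finrank K W₂ : ℤ) + 7) = 0 := by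
      have e1 : (2 * finrank K (skw b₂) + 8 : ℤ) = 8 * 8 := by
        exact_mod_cast d1
      have e2 : (2 * finrank K (skw b₂) + finrank K W₂ : ℤ) = finrank K W₂ * finrank K W₂ := by
        exact_mod_cast d2
      linear_combination e1 - e2
    rcases mul_eq_zero.mp h4 with h | h <;> omega
  obtain ⟨e, f, x, y, hee, hff, hef, hNe, hNf2, hNf3, hNf, he0, he1, he2, he3, hf0, hf1, hf2, hf3⟩ :=
    exists_hyp8 hb1 ha1 hd1 (s1 N hN) (s1 h hh) hNN hr hσ1 hdiag
  have hfe : ∀ i j, b₁ (f i) (e j) = if i = j then 1 else 0 := by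
    intro i j
    rw [ha1, hef]
    simp only [eq_comm]
  have hs := frame56 hb1 ha1 hd1 hee hff hef
  have hve := v_e56 (b := b₁) hee hfe
  have hvf := v_f56 (b := b₁) hff hef
  have hfac : ∀ i, P3.ww b₁ (e i) (f i) * P3.ww b₁ (e i) (f i) * P3.ww b₁ (e i) (f i) = P3.ww b₁ (e i) (f i) ∧
      rk (P3.ww b₁ (e i) (f i)) = 2 ∧ ∀ z, IsSk b₁ z →
        P3.ww b₁ (e i) (f i) * P3.ww b₁ (e i) (f i) * z * P3.ww b₁ (e i) (f i) =
        P3.ww b₁ (e i) (f i) * z * P3.ww b₁ (e i) (f i) * P3.ww b₁ (e i) (f i) := fun i =>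
    vec_facts56 ha1 (hee i i) (hff i i) (by rw [hef, if_pos rfl])
  have hex : ∀ i, ∃ X ∈ L, X.1 = P3.ww b₁ (e i) (f i) := fun i => LK.ex1 h1 (P3.ww_sk ha1 (e i) (f i))
  choose X hX hX1 using hex
  by_cases hvec : ∃ i, (X i).2 * (X i).2 * (X i).2 = (X i).2 ∧ rk (X i).2 = 2
  · obtain ⟨i, hi1, hi2⟩ := hvec
    left
    refine of_vec56 hL hb1 ha1 hb2 ha2 h1 h2 (by omega) (by omega) (hX i) ?_ ?_ ?_ hi1 hi2
    · rw [hX1]; exact (hfac i).1
    · rw [hX1]; exact (hfac i).2.1
    · rw [hX1]; exact (hfac i).2.2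
  right
  push Not at hvec
  have hP : ∀ i, ∃ P : Module.End K W₂, P * P = P ∧ (X i).2 = P - (2 : K)⁻¹ • 1 := by
    intro i
    have hne : (X i).2 ≠ 0 := by
      intro h0
      have h3 := hL.k2 _ (hX i) h0
      rw [hX1] at h3
      have h4 := (hfac i).2.1
      rw [h3, rk, LinearMap.range_zero, finrank_bot] at h4
      omega
    have hg : Grd (skw b₂) (X i).2 := LK.grd hL h2 (hX i) fun z hzL => by
      rw [hX1]; exact P3.vec_cube (hfac i).1 ((hfac i).2.2 z.1 (s1 z hzL))
    rcases grd_so hb2 ha2 (by omega) (s2 _ (hX i)) hne hg with h3 | h3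
    · exact h3
    · exact absurd h3.2 (hvec i h3.1)
  choose P hPP hXP using hP
  have hq : ∀ i, (X i).2 * (X i).2 = (4 : K)⁻¹ • 1 := fun i => quarter56 (hPP i) (hXP i)
  -- the linear combination
  have hlin : h.1 = σ₁ • (X 0).1 + σ₁ • (X 1).1 + x • (X 2).1 + y • (X 3).1 := by
    apply ext56 hs
    · intro i
      simp only [hX1, LinearMap.add_apply, LinearMap.smul_apply, hve]
      fin_cases i <;> simp [he0, he1, he2, he3]
    · intro i
      simp only [hX1, LinearMap.add_apply, LinearMap.smul_apply, hvf]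
      fin_cases i <;> simp [hf0, hf1, hf2, hf3]
  have hlin2 : h.2 = σ₁ • (X 0).2 + σ₁ • (X 1).2 + x • (X 2).2 + y • (X 3).2 := by
    have h3 := hL.k1 (h - (σ₁ • X 0 + σ₁ • X 1 + x • X 2 + y • X 3))
      (L.sub_mem hh (L.add_mem (L.add_mem (L.add_mem (L.smul_mem _ (hX 0)) (L.smul_mem _ (hX 1)))
        (L.smul_mem _ (hX 2))) (L.smul_mem _ (hX 3)))) (sub_eq_zero.mpr hlin)
    exact sub_eq_zero.mp h3
  have hcomm : (X 2).2 * (X 3).2 = (X 3).2 * (X 2).2 := by
    have h3 := hL.k1 (X 2 * X 3 - X 3 * X 2) (hL.br _ (hX 2) _ (hX 3)) (by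
      change (X 2).1 * (X 3).1 - (X 3).1 * (X 2).1 = 0
      rw [sub_eq_zero, hX1, hX1]
      apply ext56 hs
      · intro i
        rw [Module.End.mul_apply, Module.End.mul_apply, hve, hve]
        fin_cases i <;> simp [hve]
      · intro i
        rw [Module.End.mul_apply, Module.End.mul_apply, hvf, hvf]
        fin_cases i <;> simp [hvf])
    exact sub_eq_zero.mp h3
  -- the operator `N`
  have hNsk := s1 N hN
  obtain ⟨a, ha⟩ : ∃ a : K, N.1 (f 0) = a • e 1 ∧ N.1 (f 1) = (-a) • e 0 := by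
    obtain ⟨a0, a1, h3⟩ := Submodule.mem_span_pair.mp (hNf 0)
    obtain ⟨c0, c1, h4⟩ := Submodule.mem_span_pair.mp (hNf 1)
    have p00 := hNsk (f 0) (f 0)
    have p11 := hNsk (f 1) (f 1)
    have p01 := hNsk (f 0) (f 1)
    rw [← h3] at p00
    rw [← h4] at p11
    rw [← h3, ← h4] at p01
    simp [hef, hfe] at p00 p11 p01
    have q00 : a0 = 0 := by
      have : (2 : K) * a0 = 0 := by linear_combination p00
      exact (mul_eq_zero.mp this).resolve_left two_ne_zero
    have q11 : c1 = 0 := by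
      have : (2 : K) * c1 = 0 := by linear_combination p11
      exact (mul_eq_zero.mp this).resolve_left two_ne_zero
    refine ⟨a1, ?_, ?_⟩
    · rw [← h3, q00, zero_smul, zero_add]
    · rw [← h4, q11, zero_smul, add_zero, p01, neg_neg]
  obtain ⟨hNf0, hNf1⟩ := ha
  have ha0 : a ≠ 0 := by
    rintro rfl
    have h3 : N.1 = 0 := by
      apply ext56 hs
      · intro i
        rw [hNe, LinearMap.zero_apply]
      · intro i
        rw [LinearMap.zero_apply]
        fin_cases i
        · simpa using hNf0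
        · simpa using hNf1
        · exact hNf2
        · exact hNf3
    rw [h3, rk, LinearMap.range_zero, finrank_bot] at hr
    omega
  have hN2 : N.2 ≠ 0 := by
    intro h3
    have h4 := hL.k2 N hN h3
    rw [h4, rk, LinearMap.range_zero, finrank_bot] at hr
    omega
  have hbrN : ∀ i : Fin 4, (i = 0 ∨ i = 1) → (X i).2 * N.2 - N.2 * (X i).2 = N.2 := by
    intro i hi
    have h3 := hL.k1 (X i * N - N * X i - N) (L.sub_mem (hL.br _ (hX i) _ hN) hN) (by
      change (X i).1 * N.1 - N.1 * (X i).1 - N.1 = 0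
      rw [sub_eq_zero, hX1]
      apply ext56 hs
      · intro j
        rw [LinearMap.sub_apply, Module.End.mul_apply, Module.End.mul_apply, hve, hNe, map_zero, zero_sub]
        split_ifs <;> simp [hNe]
      · intro j
        rw [LinearMap.sub_apply, Module.End.mul_apply, Module.End.mul_apply, hvf]
        rcases hi with rfl | rfl <;> fin_cases j <;> simp [hNf0, hNf1, hNf2, hNf3, hve])
    exact sub_eq_zero.mp h3
  have hh0 : (X 0).2 * N.2 = (2 : K)⁻¹ • N.2 := half56 (hPP 0) (hXP 0) (hbrN 0 (Or.inl rfl))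
  have hh1 : (X 1).2 * N.2 = (2 : K)⁻¹ • N.2 := half56 (hPP 1) (hXP 1) (hbrN 1 (Or.inr rfl))
  have hσσ : σ₂ = σ₁ := by
    have h3 := anti56 hb1 (s1 h hh) (s1 N hN) hσ1
    have h4 := anti56 hb2 (s2 h hh) (s2 N hN) hσ2
    have h5 := hL.k1 (h * N - N * h - (2 * σ₁) • N) (L.sub_mem (hL.br _ hh _ hN) (L.smul_mem _ hN)) (by
      change h.1 * N.1 - N.1 * h.1 - (2 * σ₁) • N.1 = 0
      rw [hσ1, h3]
      module)
    change h.2 * N.2 - N.2 * h.2 - (2 * σ₁) • N.2 = 0 at h5
    rw [hσ2, h4] at h5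
    have h6 : ((2 : K) * (σ₂ - σ₁)) • N.2 = 0 := by
      rw [← h5]
      module
    have h7 := (smul_eq_zero.mp h6).resolve_right hN2
    exact sub_eq_zero.mp ((mul_eq_zero.mp h7).resolve_left two_ne_zero)
  have hAB : x • ((X 2).2 * N.2) = -(y • ((X 3).2 * N.2)) := by
    have h3 := hσ2
    rw [hlin2, hσσ, add_mul, add_mul, add_mul, smul_mul_assoc, smul_mul_assoc, smul_mul_assoc, smul_mul_assoc,
      hh0, hh1, smul_smul] at h3
    have h4 : x • ((X 2).2 * N.2) + y • ((X 3).2 * N.2) = 0 := by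
      have h5 : (σ₁ * (2 : K)⁻¹) • N.2 + (σ₁ * (2 : K)⁻¹) • N.2 = σ₁ • N.2 := by
        rw [← add_smul]
        congr 1
        ring
      rw [h5, add_assoc] at h3
      exact add_eq_left.mp h3
    exact eq_neg_of_add_eq_zero_left h4
  have hxy : x * x = y * y := by
    have h3 : (x * x * (4 : K)⁻¹) • N.2 = (y * y * (4 : K)⁻¹) • N.2 := by
      have e1 : (x * x * (4 : K)⁻¹) • N.2 = x • ((X 2).2 * (x • ((X 2).2 * N.2))) := by
        rw [mul_smul_comm, ← mul_assoc, hq, smul_mul_assoc, one_mul, smul_smul, smul_smul]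
      have e2 : (y * y * (4 : K)⁻¹) • N.2 = y • ((X 3).2 * (y • ((X 3).2 * N.2))) := by
        rw [mul_smul_comm, ← mul_assoc, hq, smul_mul_assoc, one_mul, smul_smul, smul_smul]
      rw [e1, e2, hAB]
      have e3 : y • ((X 3).2 * N.2) = -(x • ((X 2).2 * N.2)) := by rw [hAB, neg_neg]
      conv_rhs => rw [e3]
      rw [mul_neg, mul_neg, smul_neg, smul_neg, mul_smul_comm, mul_smul_comm, smul_smul, smul_smul, ← mul_assoc,
        ← mul_assoc, hcomm, mul_comm x y]
    rw [← sub_eq_zero, ← sub_smul] at h3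
    have h4 := (smul_eq_zero.mp h3).resolve_right hN2
    have h5 : (x * x - y * y) * (4 : K)⁻¹ = 0 := by linear_combination h4
    exact sub_eq_zero.mp ((mul_eq_zero.mp h5).resolve_right (by norm_num))
  refine nev_le_two (a := x) (b := -x) fun v hv => ?_
  have hc0 : b₁ (e 0) v = 0 := by
    have h3 := hNsk (f 1) v
    rw [hv, map_zero, neg_zero, hNf1, map_smul, LinearMap.smul_apply, smul_eq_mul] at h3
    exact (mul_eq_zero.mp h3).resolve_left (neg_ne_zero.mpr ha0)
  have hc1 : b₁ (e 1) v = 0 := by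
    have h3 := hNsk (f 0) v
    rw [hv, map_zero, neg_zero, hNf0, map_smul, LinearMap.smul_apply, smul_eq_mul] at h3
    exact (mul_eq_zero.mp h3).resolve_left ha0
  refine ⟨((σ₁ * σ₁ - x * x) * b₁ (f 1) v * a⁻¹) • f 0 - ((σ₁ * σ₁ - x * x) * b₁ (f 0) v * a⁻¹) • f 1, ?_⟩
  have hv1 := hs v
  rw [Fin.sum_univ_four, hc0, hc1, zero_smul, zero_smul, add_zero, add_zero] at hv1
  rw [add_neg_cancel, zero_smul, sub_zero, map_sub, map_smul, map_smul, hNf0, hNf1, smul_smul, smul_smul]
  conv_lhs => rw [hv1]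
  simp only [map_add, map_smul, he0, he1, he2, he3, hf0, hf1, hf2, hf3, smul_smul, smul_add]
  have e1 : (σ₁ * σ₁ - x * x) * b₁ (f 1) v * a⁻¹ * a = (σ₁ * σ₁ - x * x) * b₁ (f 1) v := by
    field_simp
  have e2 : (σ₁ * σ₁ - x * x) * b₁ (f 0) v * a⁻¹ * -a = -((σ₁ * σ₁ - x * x) * b₁ (f 0) v) := by
    field_simp
  rw [e1, e2]
  have e3 : b₁ (f 3) v * y * y = b₁ (f 3) v * x * x := by rw [mul_assoc, mul_assoc, hxy]
  have e4 : b₁ (e 3) v * -y * -y = b₁ (e 3) v * x * x := by linear_combination -(b₁ (e 3) v) * hxy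
  rw [e3, e4]
  module

end pair

end FR
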